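import Pool.Agent.Helper30.LK.St
import Pool.Agent.Helper9.SU.M_ALL

/-!
# Project LK, module SVU: upper bound sieve in one variable
-/

set_option autoImplicit false

noncomputable section

namespace Pool.Agent.Helper36.LK

open Finset ArithmeticFunction Filter
open Pool.Agent.Helper18.TR (StFL)
open Pool.Agent.Helper15.AB (StMT)
open Pool.Agent.Helper30.LK

/-- the product is at most the exponential -/
private theorem prod_SVU (Q : Finset ℕ) (g : ℕ → ℝ) (hg : ∀ l ∈ Q, g l ≤ 1) :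
    ∏ l ∈ Q, (1 - g l) ≤ Real.exp (-∑ l ∈ Q, g l) := by
  rw [← sum_neg_distrib, Real.exp_sum]
  refine prod_le_prod (fun l hl => by linarith [hg l hl]) (fun l _ => ?_)
  have h := Real.add_one_le_exp (-g l)
  linarith

open Classical in
theorem hSVU (hF : StFL) (hM : StMT) : StSVU := by
  obtain ⟨B, hB⟩ := hF 3 1 (by norm_num) (by norm_num)
  obtain ⟨CM, hCM0, hCM⟩ := hM
  set δ : ℝ := 1 / (4 * (B : ℝ) + 8) with hδ
  have hB0 : (0 : ℝ) ≤ B := Nat.cast_nonneg B
  have hδ0 : 0 < δ := by rw [hδ]; positivity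
  have hδ8 : δ ≤ 1 / 8 := by
    rw [hδ]
    exact one_div_le_one_div_of_le (by norm_num) (by linarith)
  have hδB : δ * (2 * B) ≤ 1 / 2 := by
    rw [hδ, one_div, inv_mul_le_iff₀ (by positivity)]
    linarith
  have hK0 : 0 < Real.exp (3 * CM) := Real.exp_pos _
  refine ⟨2 + 216 * Real.exp (3 * CM), δ, by positivity, hδ0, by linarith, ?_⟩
  intro N hN S hS
  have hN2 : (2 : ℝ) ≤ N := by exact_mod_cast hN
  have hN0 : (0 : ℝ) < N := by linarith
  have hlog : 0 < Real.log N := Real.log_pos (by linarith)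
  set w : ℕ := ⌊(N : ℝ) ^ δ⌋₊ with hw
  have hwle : (w : ℝ) ≤ (N : ℝ) ^ δ := Nat.floor_le (by positivity)
  by_cases hw7 : w < 7
  · have h0 : (Icc 7 w).filter Nat.Prime = ∅ := by
      rw [Finset.Icc_eq_empty (by omega), filter_empty]
    rw [h0, sum_empty, neg_zero, Real.exp_zero, mul_one]
    have h4 : (((Icc 1 N).filter (fun n : ℕ => ∀ l : ℕ, l.Prime → 7 ≤ l →
        (l : ℝ) ≤ (N : ℝ) ^ δ → n % l ∉ S l)).card : ℝ) ≤ N := by
      have h5 := card_filter_le (Icc 1 N) (fun n : ℕ => ∀ l : ℕ, l.Prime → 7 ≤ l →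
        (l : ℝ) ≤ (N : ℝ) ^ δ → n % l ∉ S l)
      rw [Nat.card_Icc] at h5
      exact_mod_cast (by omega : _ ≤ N)
    refine h4.trans ?_
    nlinarith
  · push Not at hw7
    have hw7R : (7 : ℝ) ≤ w := by exact_mod_cast hw7
    set Q : Finset ℕ := (Icc 7 w).filter Nat.Prime with hQ
    have hQp : ∀ l ∈ Q, l.Prime ∧ 7 ≤ l ∧ l ≤ w := by
      intro l hl
      rw [hQ, mem_filter, mem_Icc] at hl
      exact ⟨hl.2, hl.1.1, hl.1.2⟩
    set g : ℕ → ℝ := fun l => ((S l).card : ℝ) / l with hg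
    have hg3 : ∀ l ∈ Q, 0 ≤ g l ∧ g l ≤ 3 / l ∧ g l ≤ 1 / 2 := by
      intro l hl
      obtain ⟨hp, h5, _⟩ := hQp l hl
      have hc := (hS l hp h5).2
      have hcR : ((S l).card : ℝ) ≤ 3 := by exact_mod_cast hc
      have h1 : (7 : ℝ) ≤ l := by exact_mod_cast h5
      refine ⟨by rw [hg]; positivity, ?_, ?_⟩
      · rw [hg]
        exact div_le_div_of_nonneg_right hcR (by linarith)
      · rw [hg]
        show ((S l).card : ℝ) / l ≤ 1 / 2
        rw [div_le_div_iff₀ (by linarith) (by norm_num)]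
        linarith
    have hfin := hB w (by omega) Q (fun p hp => ⟨(hQp p hp).1, (hQp p hp).2.2⟩) g hg3 ℕ (Icc 1 N)
      (fun l n => n % l ∈ S l) (N : ℝ) ((w : ℝ) ^ B) hN0.le
      (by positivity) (by
        intro T hT hTw
        have h1 := Pool.Agent.Helper9.SU.cntT_ALL 0 N S T (by
          intro l hl
          exact ⟨(hQp l (hT hl)).1, (hS l (hQp l (hT hl)).1 (hQp l (hT hl)).2.1).1⟩) 1 0 le_rfl
          (fun l _ => Nat.coprime_one_right l)
        have h2 : (Ioc 0 (0 + N)).filter (fun e => e % 1 = 0 % 1 ∧ ∀ l ∈ T, e % l ∈ S l) =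
            (Icc 1 N).filter (fun e => ∀ l ∈ T, e % l ∈ S l) := by
          ext e
          simp only [mem_filter, mem_Ioc, mem_Icc, Nat.mod_one, true_and]
          constructor
          · rintro ⟨h3, h4⟩
            exact ⟨by omega, h4⟩
          · rintro ⟨h3, h4⟩
            exact ⟨by omega, h4⟩
        rw [h2, Nat.cast_one, div_one] at h1
        have h1' : |(((Icc 1 N).filter (fun e => ∀ l ∈ T, e % l ∈ S l)).card : ℝ) -
            (N : ℝ) * ∏ l ∈ T, g l| ≤ ∏ l ∈ T, ((S l).card : ℝ) := by convert h1 using 1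
        refine le_trans (by convert h1' using 1) ?_
        calc ∏ l ∈ T, ((S l).card : ℝ) ≤ ∏ l ∈ T, (l : ℝ) := by
              refine prod_le_prod (fun _ _ => Nat.cast_nonneg _) ?_
              intro l hl
              have h5 := (hQp l (hT hl)).2.1
              have h2 := (hS l (hQp l (hT hl)).1 h5).2
              exact_mod_cast (by omega : (S l).card ≤ l)
          _ = ((∏ l ∈ T, l : ℕ) : ℝ) := by push_cast; rfl
          _ ≤ ((w ^ B : ℕ) : ℝ) := by exact_mod_cast hTw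
          _ = (w : ℝ) ^ B := by push_cast; rfl)
    set PP : ℝ := ∏ p ∈ Q, (1 - g p) with hPP
    have hub : (((Icc 1 N).filter (fun n : ℕ => ∀ l ∈ Q, ¬ n % l ∈ S l)).card : ℝ) ≤
        2 * (N * PP) + (w : ℝ) ^ B * (w : ℝ) ^ B := by
      have h5 := (abs_le.1 hfin).2
      have h6 : (((Icc 1 N).filter (fun n : ℕ => ∀ l ∈ Q, ¬ n % l ∈ S l)).card : ℝ) - N * PP ≤
        1 * (N * PP) + (w : ℝ) ^ B * (w : ℝ) ^ B := by convert h5 using 1
      linarith
    have hsub : (((Icc 1 N).filter (fun n : ℕ => ∀ l : ℕ, l.Prime → 7 ≤ l →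
        (l : ℝ) ≤ (N : ℝ) ^ δ → n % l ∉ S l)).card : ℝ) ≤
        (((Icc 1 N).filter (fun n : ℕ => ∀ l ∈ Q, ¬ n % l ∈ S l)).card : ℝ) := by
      have h7 : (Icc 1 N).filter (fun n : ℕ => ∀ l : ℕ, l.Prime → 7 ≤ l →
        (l : ℝ) ≤ (N : ℝ) ^ δ → n % l ∉ S l) ⊆
          (Icc 1 N).filter (fun n : ℕ => ∀ l ∈ Q, ¬ n % l ∈ S l) := by
        intro n hn
        rw [mem_filter] at hn ⊢
        refine ⟨hn.1, fun l hl => ?_⟩
        obtain ⟨hp, h5, hlw⟩ := hQp l hl
        refine hn.2 l hp h5 ?_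
        have h8 : (l : ℝ) ≤ w := by exact_mod_cast hlw
        linarith
      exact_mod_cast card_le_card h7
    -- the product
    have hPPle : PP ≤ Real.exp (-∑ l ∈ Q, g l) :=
      prod_SVU Q g (fun l hl => by linarith [(hg3 l hl).2.2])
    -- the lower bound for the exponential
    have hsum : ∑ l ∈ Q, g l ≤ 3 * (Real.log (Real.log N) + CM) := by
      have h1 : ∑ l ∈ Q, g l ≤ ∑ l ∈ Q, 3 * ((1 : ℝ) / l) := by
        refine sum_le_sum (fun l hl => ?_)
        have := (hg3 l hl).2.1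
        have h7 : (3 : ℝ) * (1 / l) = 3 / l := by ring
        rw [h7]
        exact this
      have h2 : ∑ l ∈ Q, (1 : ℝ) / l ≤ ∑ l ∈ (Icc 1 w).filter Nat.Prime, (1 : ℝ) / l := by
        refine sum_le_sum_of_subset_of_nonneg ?_ (fun l _ _ => by positivity)
        intro l hl
        obtain ⟨hp, h5, hlw⟩ := hQp l hl
        rw [mem_filter, mem_Icc]
        exact ⟨⟨by omega, hlw⟩, hp⟩
      have h3 := hCM w (by linarith)
      rw [Nat.floor_natCast] at h3
      have h4 := (abs_le.1 h3).2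
      have h5 : Real.log (Real.log w) ≤ Real.log (Real.log N) := by
        have h6 : (w : ℝ) ≤ N := by
          refine hwle.trans ?_
          calc (N : ℝ) ^ δ ≤ (N : ℝ) ^ (1 : ℝ) :=
                Real.rpow_le_rpow_of_exponent_le (by linarith) (by linarith)
            _ = N := Real.rpow_one _
        refine Real.log_le_log (Real.log_pos (by linarith)) ?_
        exact Real.log_le_log (by linarith) h6
      rw [← mul_sum] at h1
      linarith
    have hexp : Real.exp (-(3 * CM)) / Real.log N ^ 3 ≤ Real.exp (-∑ l ∈ Q, g l) := by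
      have h1 : Real.exp (-(3 * CM)) / Real.log N ^ 3 =
          Real.exp (-(3 * (Real.log (Real.log N) + CM))) := by
        have h2 : -(3 * (Real.log (Real.log N) + CM)) =
            -(3 * CM) + ((3 : ℕ) : ℝ) * (-Real.log (Real.log N)) := by push_cast; ring
        rw [h2, Real.exp_add, Real.exp_nat_mul, Real.exp_neg (Real.log (Real.log N)),
          Real.exp_log hlog, inv_pow, div_eq_mul_inv]
      rw [h1]
      exact Real.exp_le_exp.2 (by linarith)
    -- the error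
    have herr : (w : ℝ) ^ B * (w : ℝ) ^ B ≤ 216 * (N / Real.log N ^ 3) := by
      have h1 : (w : ℝ) ^ B * (w : ℝ) ^ B ≤ (N : ℝ) ^ (1 / 2 : ℝ) := by
        calc (w : ℝ) ^ B * (w : ℝ) ^ B = (w : ℝ) ^ (2 * B) := by ring
          _ ≤ ((N : ℝ) ^ δ) ^ (2 * B) := pow_le_pow_left₀ (by positivity) hwle _
          _ = (N : ℝ) ^ (δ * (2 * B)) := by
              rw [← Real.rpow_natCast, ← Real.rpow_mul hN0.le]
              push_cast
              rfl
          _ ≤ (N : ℝ) ^ (1 / 2 : ℝ) := Real.rpow_le_rpow_of_exponent_le (by linarith) hδB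
      have h2 : Real.log N ≤ 6 * (N : ℝ) ^ (1 / 6 : ℝ) := by
        have h3 := Real.log_le_rpow_div hN0.le (ε := 1 / 6) (by norm_num)
        linarith
      have h4 : ((N : ℝ) ^ (1 / 6 : ℝ)) ^ 3 = (N : ℝ) ^ (1 / 2 : ℝ) := by
        rw [← Real.rpow_natCast, ← Real.rpow_mul hN0.le]
        norm_num
      have h5 : (N : ℝ) = (N : ℝ) ^ (1 / 2 : ℝ) * (N : ℝ) ^ (1 / 2 : ℝ) := by
        rw [← Real.rpow_add hN0]
        norm_num
      have h7 : Real.log N ^ 3 ≤ 216 * (N : ℝ) ^ (1 / 2 : ℝ) := by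
        calc Real.log N ^ 3 ≤ (6 * (N : ℝ) ^ (1 / 6 : ℝ)) ^ 3 := pow_le_pow_left₀ hlog.le h2 3
          _ = 216 * ((N : ℝ) ^ (1 / 6 : ℝ)) ^ 3 := by ring
          _ = 216 * (N : ℝ) ^ (1 / 2 : ℝ) := by rw [h4]
      refine h1.trans ?_
      rw [mul_div_assoc', le_div_iff₀ (pow_pos hlog 3)]
      have h9 : 0 < (N : ℝ) ^ (1 / 2 : ℝ) := by positivity
      calc (N : ℝ) ^ (1 / 2 : ℝ) * Real.log N ^ 3 ≤
            (N : ℝ) ^ (1 / 2 : ℝ) * (216 * (N : ℝ) ^ (1 / 2 : ℝ)) :=
            mul_le_mul_of_nonneg_left h7 h9.le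
        _ = 216 * ((N : ℝ) ^ (1 / 2 : ℝ) * (N : ℝ) ^ (1 / 2 : ℝ)) := by ring
        _ = 216 * (N : ℝ) := by rw [← h5]
    have herr' : (w : ℝ) ^ B * (w : ℝ) ^ B ≤
        216 * Real.exp (3 * CM) * N * Real.exp (-∑ l ∈ Q, g l) := by
      have h1 : 216 * (N / Real.log N ^ 3) =
          216 * Real.exp (3 * CM) * N * (Real.exp (-(3 * CM)) / Real.log N ^ 3) := by
        have h2 : Real.exp (3 * CM) * Real.exp (-(3 * CM)) = 1 := by
          rw [← Real.exp_add, add_neg_cancel, Real.exp_zero]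
        calc 216 * ((N : ℝ) / Real.log N ^ 3) = 216 * (N / Real.log N ^ 3) * 1 := by ring
          _ = 216 * (N / Real.log N ^ 3) * (Real.exp (3 * CM) * Real.exp (-(3 * CM))) := by rw [h2]
          _ = _ := by ring
      rw [h1] at herr
      refine herr.trans (mul_le_mul_of_nonneg_left hexp (by positivity))
    have hmain : 2 * (N * PP) ≤ 2 * N * Real.exp (-∑ l ∈ Q, g l) := by
      have h1 : N * PP ≤ N * Real.exp (-∑ l ∈ Q, g l) :=
        mul_le_mul_of_nonneg_left hPPle hN0.le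
      linarith
    calc _ ≤ _ := hsub
      _ ≤ _ := hub
      _ ≤ 2 * N * Real.exp (-∑ l ∈ Q, g l) +
          216 * Real.exp (3 * CM) * N * Real.exp (-∑ l ∈ Q, g l) := by
          linarith
      _ = (2 + 216 * Real.exp (3 * CM)) * N * Real.exp (-∑ l ∈ Q, g l) := by ring

end Pool.Agent.Helper36.LK
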